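import Mathlib

/-!
# Super Delta points along rays

If `x` is a norm-one super Delta point, then `r • x` is a super Delta point for every `0 < r < 1`.
-/

open Set Metric

namespace Pool.Agent.Results.MP_48b6db_an.RaySuperDelta

/-- A relatively weakly open subset of the closed unit ball: a non-empty intersection of the closed
unit ball with a weakly open set. -/
def RelWeakOpen (𝕜 : Type*) {X : Type*} [RCLike 𝕜] [NormedAddCommGroup X] [NormedSpace 𝕜 X]
    (V : Set X) : Prop :=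
  V.Nonempty ∧ ∃ U : Set (WeakSpace 𝕜 X), IsOpen U ∧
    V = {y : X | y ∈ closedBall (0 : X) 1 ∧ toWeakSpace 𝕜 X y ∈ U}

/-- `x` is a super Delta point: it lies in the closed unit ball and
`sup_{y ∈ V} ‖x - y‖ = 1 + ‖x‖` for every relatively weakly open subset `V` of the unit ball with
`x ∈ V`. -/
def IsSuperDelta (𝕜 : Type*) {X : Type*} [RCLike 𝕜] [NormedAddCommGroup X] [NormedSpace 𝕜 X]
    (x : X) : Prop :=
  x ∈ closedBall (0 : X) 1 ∧
    ∀ V : Set X, RelWeakOpen 𝕜 V → x ∈ V → IsLUB ((fun y : X => ‖x - y‖) '' V) (1 + ‖x‖)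

theorem result {𝕜 : Type*} {X : Type*} [RCLike 𝕜] [NormedAddCommGroup X] [NormedSpace 𝕜 X]
    [CompleteSpace X] (x : X) (hx : ‖x‖ = 1) (hd : IsSuperDelta 𝕜 x) (r : ℝ) (hr0 : 0 < r)
    (hr1 : r < 1) : IsSuperDelta 𝕜 ((r : 𝕜) • x) := by
  have hnr : ‖(r : 𝕜) • x‖ = r := by
    rw [norm_smul, hx, mul_one, RCLike.norm_ofReal, abs_of_pos hr0]
  refine ⟨by simp only [mem_closedBall, dist_zero_right, hnr]; exact hr1.le, ?_⟩
  rintro V ⟨-, U, hU, rfl⟩ hxV
  rw [hnr]
  -- the affine map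
  set a : ℝ := (1 + r) / 2 with ha
  set b : ℝ := (1 - r) / 2 with hb
  have ha0 : 0 < a := by rw [ha]; linarith
  have hb0 : 0 < b := by rw [hb]; linarith
  have hab : a + b = 1 := by rw [ha, hb]; ring
  have hab' : a - b = r := by rw [ha, hb]; ring
  let φ : WeakSpace 𝕜 X → WeakSpace 𝕜 X :=
    fun y => (a : 𝕜) • y - toWeakSpace 𝕜 X ((b : 𝕜) • x)
  have hφ : Continuous φ := (continuous_const_smul (a : 𝕜)).sub continuous_const
  have hφx : φ (toWeakSpace 𝕜 X x) = toWeakSpace 𝕜 X ((r : 𝕜) • x) := by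
    simp only [φ]
    rw [← map_smul, ← map_sub, ← sub_smul, ← hab']
    push_cast
    rfl
  have hV' := hd.2 {y : X | y ∈ closedBall (0 : X) 1 ∧ toWeakSpace 𝕜 X y ∈ φ ⁻¹' U} ?_ ?_
  · constructor
    · rintro _ ⟨y, ⟨hy1, -⟩, rfl⟩
      have h1 : ‖y‖ ≤ 1 := by simpa using hy1
      calc ‖(r : 𝕜) • x - y‖ ≤ ‖(r : 𝕜) • x‖ + ‖y‖ := norm_sub_le _ _
        _ ≤ r + 1 := by rw [hnr]; linarith
        _ = 1 + r := by ring
    · intro c hc
      have h2 : (1 + ‖x‖) ≤ c / a := by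
        apply hV'.2
        rintro _ ⟨y, ⟨hy1, hy2⟩, rfl⟩
        have hy1' : ‖y‖ ≤ 1 := by simpa using hy1
        rw [le_div_iff₀ ha0]
        have h3 : ‖(r : 𝕜) • x - ((a : 𝕜) • y - (b : 𝕜) • x)‖ ≤ c := by
          apply hc
          refine ⟨(a : 𝕜) • y - (b : 𝕜) • x, ⟨?_, ?_⟩, rfl⟩
          · simp only [mem_closedBall, dist_zero_right]
            calc ‖(a : 𝕜) • y - (b : 𝕜) • x‖ ≤ ‖(a : 𝕜) • y‖ + ‖(b : 𝕜) • x‖ := norm_sub_le _ _
              _ = a * ‖y‖ + b := by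
                rw [norm_smul, norm_smul, hx, RCLike.norm_ofReal, RCLike.norm_ofReal,
                  abs_of_pos ha0, abs_of_pos hb0, mul_one]
              _ ≤ a * 1 + b := by gcongr
              _ = 1 := by rw [mul_one, hab]
          · have : φ (toWeakSpace 𝕜 X y) ∈ U := hy2
            simpa only [φ, ← map_smul, ← map_sub] using this
        have h4 : (r : 𝕜) • x - ((a : 𝕜) • y - (b : 𝕜) • x) = (a : 𝕜) • (x - y) := by
          rw [smul_sub]
          have : (a : 𝕜) • x = (r : 𝕜) • x + (b : 𝕜) • x := by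
            rw [← add_smul]
            congr 1
            rw [← hab']
            push_cast
            ring
          rw [this]
          abel
        rw [h4, norm_smul, RCLike.norm_ofReal, abs_of_pos ha0] at h3
        linarith
      rw [hx, le_div_iff₀ ha0] at h2
      have h5 : (1 + 1) * a = 1 + r := by rw [ha]; ring
      linarith
  · refine ⟨⟨x, ?_, ?_⟩, φ ⁻¹' U, hU.preimage hφ, rfl⟩
    · simp [hx]
    · show φ (toWeakSpace 𝕜 X x) ∈ U
      rw [hφx]; exact hxV.2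
  · refine ⟨by simp [hx], ?_⟩
    show φ (toWeakSpace 𝕜 X x) ∈ U
    rw [hφx]; exact hxV.2

end Pool.Agent.Results.MP_48b6db_an.RaySuperDelta
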